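import Pool.Agent.H18.HIT.Targets
import Pool.Agent.H14.ZA.SPC

/-! # Hilbert irreducibility and dense orbits: specialization to the algebraic numbers -/

set_option autoImplicit false

open MvPolynomial
open Pool.Agent.H12.ZD (pmap v O Res DenseOrbit NoInv)
open Pool.Agent.H18.HIT

namespace Pool.Agent.H69.HIT

section lift

variable {N : ℕ}

theorem lift_mv {k : Type} [CommRing k] (A : Subring k) (q : Po N k)
    (h : ∀ m, coeff m q ∈ A) : ∃ qA : Po N A, map A.subtype qA = q := by
  refine ⟨∑ m ∈ q.support, monomial m ⟨coeff m q, h m⟩, ?_⟩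
  rw [map_sum]
  simp only [map_monomial]
  exact q.support_sum_monomial_coeff

theorem lift_poly {k : Type} [CommRing k] (A : Subring k) (P : Polynomial (Po N k))
    (h : ∀ n m, coeff m (P.coeff n) ∈ A) :
    ∃ PA : Polynomial (Po N A), PA.map (map A.subtype) = P := by
  have h1 : P ∈ Polynomial.lifts (map A.subtype : Po N A →+* Po N k) :=
    (Polynomial.lifts_iff_coeff_lifts P).2 fun n => lift_mv A (P.coeff n) (h n)
  exact (Polynomial.mem_lifts P).1 h1

/-- the coefficients of the coefficients -/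
noncomputable def cf2 {k : Type} [CommRing k] (P : Polynomial (Po N k)) : Set k :=
  {c | ∃ n ∈ P.support, ∃ m ∈ (P.coeff n).support, coeff m (P.coeff n) = c}

theorem cf2_finite {k : Type} [CommRing k] (P : Polynomial (Po N k)) : (cf2 P).Finite := by
  have h1 : cf2 P = ⋃ n ∈ P.support, (fun m => coeff m (P.coeff n)) '' (P.coeff n).support := by
    ext c
    simp only [cf2, Set.mem_setOf_eq, Set.mem_iUnion, Set.mem_image, Finset.mem_coe,
      exists_prop]
  rw [h1]
  exact Set.Finite.biUnion (Finset.finite_toSet _) fun n _ => (Finset.finite_toSet _).image _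

theorem mem_of_cf2 {k : Type} [CommRing k] (A : Subring k) (P : Polynomial (Po N k))
    (h : cf2 P ⊆ A) (n : ℕ) (m : Fin N →₀ ℕ) : coeff m (P.coeff n) ∈ A := by
  by_cases h0 : coeff m (P.coeff n) = 0
  · rw [h0]
    exact A.zero_mem
  · refine h ⟨n, ?_, m, mem_support_iff.2 h0, rfl⟩
    rw [Polynomial.mem_support_iff]
    intro h1
    rw [h1, coeff_zero] at h0
    exact h0 rfl

theorem map_hev' {k k' : Type} [CommRing k] [CommRing k'] {B B' : Type} [CommRing B]
    [Algebra k B] [CommRing B'] [Algebra k' B'] (ψ : k →+* k') (Ψ : B →+* B')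
    (hΨ : ∀ c : k, Ψ (algebraMap k B c) = algebraMap k' B' (ψ c)) (R : Fin N → B) (δ : B)
    (D : ℕ) (q : Po N k) :
    Ψ (hev R δ D q) = hev (fun i => Ψ (R i)) (Ψ δ) D (map ψ q) := by
  unfold hev
  rw [map_sum]
  have h1 : ∑ m ∈ (map ψ q).support, algebraMap k' B' (coeff m (map ψ q)) *
      Ψ δ ^ (D - m.sum fun _ e => e) * ∏ i, Ψ (R i) ^ m i =
      ∑ m ∈ q.support, algebraMap k' B' (coeff m (map ψ q)) *
      Ψ δ ^ (D - m.sum fun _ e => e) * ∏ i, Ψ (R i) ^ m i := by
    refine Finset.sum_subset (support_map_subset _ _) fun m _ hm => ?_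
    rw [notMem_support_iff.1 hm, map_zero, zero_mul, zero_mul]
  rw [h1]
  refine Finset.sum_congr rfl fun m _ => ?_
  rw [map_mul, map_mul, map_pow, map_prod, hΨ, coeff_map]
  simp only [map_pow]

theorem map_eval' {k k' : Type} [CommRing k] [CommRing k'] (ψ : k →+* k') (x : Fin N → k)
    (p : Po N k) : ψ (eval x p) = eval (fun i => ψ (x i)) (map ψ p) := by
  rw [eval_map]
  have h1 := eval₂_comp_left ψ (RingHom.id k) x p
  rw [RingHom.comp_id] at h1
  exact h1

theorem map_pmap {k k' : Type} [CommRing k] [CommRing k'] (ψ : k →+* k') (f : Tup N k)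
    (x : Fin N → k) : (fun i => ψ (pmap f x i)) = pmap (mp ψ f) (fun i => ψ (x i)) :=
  funext fun _ => map_eval' ψ x _

theorem map_iter {k k' : Type} [CommRing k] [CommRing k'] (ψ : k →+* k') (f : Tup N k)
    (x : Fin N → k) (n : ℕ) : (fun i => ψ ((pmap f)^[n] x i)) =
      (pmap (mp ψ f))^[n] (fun i => ψ (x i)) := by
  induction n with
  | zero => rfl
  | succ n ih =>
    rw [Function.iterate_succ_apply', Function.iterate_succ_apply', ← ih, ← map_pmap]

theorem deg_mp_le {k k' : Type} [CommRing k] [CommRing k'] (ψ : k →+* k') (q : Po N k) :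
    (map ψ q).totalDegree ≤ q.totalDegree :=
  Finset.sup_mono (support_map_subset _ _)

theorem deg_mp_inj {k k' : Type} [CommRing k] [CommRing k'] (ψ : k →+* k')
    (hψ : Function.Injective ψ) (q : Po N k) : (map ψ q).totalDegree = q.totalDegree := by
  unfold totalDegree
  rw [support_map_of_injective _ hψ]

end lift

/-- density of the orbit is inherited from the specialization -/
theorem dense_lift (hKER : T_KER) {N : ℕ} {k : Type} [Field k] (A : Subring k) (φ : A →+* Qb)
    (fA : Tup N A) (yA : Fin N → A) (hd : DenseOrbit (mp φ fA) (fun i => φ (yA i))) :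
    DenseOrbit (mp A.subtype fA) (fun i => (yA i : k)) := by
  classical
  intro q hq
  by_contra hq0
  -- the monomials
  set r : ℕ := q.support.card with hr
  have hr1 : 1 ≤ r := by
    rw [hr]
    exact Finset.card_pos.2 (support_nonempty.2 hq0)
  set en : Fin r ≃ q.support := (Finset.equivFin q.support).symm with hen
  set W : ℕ → Fin r → A := fun n j => ∏ i, ((pmap fA)^[n] yA i) ^ ((en j : Fin N →₀ ℕ) i) with hW
  have hWk : ∀ n, ∑ j, (W n j : k) * coeff (en j : Fin N →₀ ℕ) q = 0 := by
    intro n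
    have h1 := hq n
    have h2 : (pmap (mp A.subtype fA))^[n] (fun i => (yA i : k)) =
        fun i => (((pmap fA)^[n] yA i : A) : k) := (map_iter A.subtype fA yA n).symm
    rw [h2, eval_eq'] at h1
    rw [← h1]
    rw [← Finset.sum_coe_sort q.support]
    refine Fintype.sum_equiv en _ _ fun j => ?_
    rw [mul_comm, hW]
    push_cast
    rfl
  have hdet : ∃ s : Fin r → ℕ, Matrix.det (Matrix.of fun i j => φ (W (s i) j)) ≠ 0 := by
    by_contra hcon
    push Not at hcon
    obtain ⟨g, hg0, hg⟩ := hKER Qb ℕ r (fun n j => φ (W n j)) hcon hr1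
    set q' : Po N Qb := ∑ j, monomial (en j : Fin N →₀ ℕ) (g j) with hq'
    have h1 : q' = 0 := by
      refine hd q' fun n => ?_
      rw [hq', map_sum]
      have h2 : (pmap (mp φ fA))^[n] (fun i => φ (yA i)) =
          fun i => φ ((pmap fA)^[n] yA i) := (map_iter φ fA yA n).symm
      rw [h2]
      rw [← hg n]
      refine Finset.sum_congr rfl fun j _ => ?_
      rw [eval_monomial, hW]
      congr 1
      rw [Finsupp.prod_fintype _ _ (fun _ => pow_zero _)]
      change _ = φ (∏ i, ((pmap fA)^[n] yA i) ^ ((en j : Fin N →₀ ℕ) i))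
      rw [map_prod]
      simp only [map_pow]
    apply hg0
    funext j
    have h3 := congrArg (coeff (en j : Fin N →₀ ℕ)) h1
    rw [hq', coeff_sum, coeff_zero, Finset.sum_eq_single j] at h3
    · rw [coeff_monomial, if_pos rfl] at h3
      exact h3
    · intro j' _ hj
      rw [coeff_monomial, if_neg]
      intro h4
      exact hj (en.injective (Subtype.ext h4))
    · intro h4
      exact absurd (Finset.mem_univ j) h4
  obtain ⟨s, hs⟩ := hdet
  have h1 : φ (Matrix.det (Matrix.of fun i j => W (s i) j)) ≠ 0 := by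
    rw [RingHom.map_det]
    exact hs
  have h2 : (Matrix.det (Matrix.of fun i j => W (s i) j) : A) ≠ 0 := by
    intro h
    rw [h, map_zero] at h1
    exact h1 rfl
  have h3 : Matrix.det (Matrix.of fun i j => (W (s i) j : k)) ≠ 0 := by
    intro h
    apply h2
    apply A.subtype_injective
    rw [RingHom.map_det, map_zero]
    exact h
  have h4 : (Matrix.of fun i j => (W (s i) j : k)).mulVec
      (fun j => coeff (en j : Fin N →₀ ℕ) q) = 0 := by
    funext i
    exact hWk (s i)
  have h5 := Matrix.eq_zero_of_mulVec_eq_zero h3 h4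
  obtain ⟨j⟩ : Nonempty (Fin r) := ⟨⟨0, hr1⟩⟩
  exact (mem_support_iff.1 (en j).2) (congrFun h5 j)

theorem pf_SPD (hKER : T_KER) : T_SPD := by
  classical
  intro N k _ _ _ f b e D Φ θ ρ Δ R hC hρ hΔ hb
  obtain ⟨U, V, hUV⟩ := hC.sep
  have hinv := hC.inv
  choose Q hQ using hinv
  obtain ⟨Q0, hQ0⟩ := hC.prim
  -- all polynomials
  set PP : Set (Polynomial (Po N k)) := {Polynomial.C b, Φ, Polynomial.C θ, Polynomial.C ρ,
    Polynomial.C Δ, U, V, Q0} ∪ (Set.range (fun i => Polynomial.C (f i)) ∪ (Set.range R ∪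
      Set.range Q)) with hPP
  have hPPf : PP.Finite := by
    refine Set.Finite.union (by simp) (Set.Finite.union (Set.finite_range _)
      (Set.Finite.union (Set.finite_range _) (Set.finite_range _)))
  have hSf : (⋃ P ∈ PP, cf2 P).Finite := hPPf.biUnion fun P _ => cf2_finite P
  obtain ⟨mb, hmb⟩ : ∃ m, coeff m b ≠ 0 := by
    by_contra h
    push Not at h
    exact hb (MvPolynomial.ext _ _ fun m => by rw [h m, coeff_zero])
  obtain ⟨mρ, hmρ⟩ : ∃ m, coeff m ρ ≠ 0 := by
    by_contra h
    push Not at h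
    exact hρ (MvPolynomial.ext _ _ fun m => by rw [h m, coeff_zero])
  obtain ⟨mΔ, hmΔ⟩ : ∃ m, coeff m Δ ≠ 0 := by
    by_contra h
    push Not at h
    exact hΔ (MvPolynomial.ext _ _ fun m => by rw [h m, coeff_zero])
  obtain ⟨ι, A, φ, hSA, hE, -, hι, -⟩ := Pool.Agent.H14.ZA.pf_SPC k hSf.toFinset
    {coeff mb b, coeff mρ ρ, coeff mΔ Δ} (by
      intro e he
      simp only [Finset.mem_insert, Finset.mem_singleton] at he
      rcases he with rfl | rfl | rfl
      · exact hmb
      · exact hmρ
      · exact hmΔ)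
  have hA : ∀ P ∈ PP, ∀ n m, coeff m (P.coeff n) ∈ A := by
    intro P hP
    refine mem_of_cf2 A P fun c hc => ?_
    refine hSA c ?_
    rw [Set.Finite.mem_toFinset]
    exact Set.mem_biUnion hP hc
  have hliftC : ∀ q : Po N k, Polynomial.C q ∈ PP → ∃ qA : Po N A, map A.subtype qA = q := by
    intro q hq
    refine lift_mv A q fun m => ?_
    have h1 := hA _ hq 0 m
    rwa [Polynomial.coeff_C_zero] at h1
  have hlift : ∀ P ∈ PP, ∃ PA : Polynomial (Po N A), PA.map (map A.subtype) = P :=
    fun P hP => lift_poly A P (hA P hP)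
  obtain ⟨bA, hbA⟩ := hliftC b (Or.inl (by simp))
  obtain ⟨θA, hθA⟩ := hliftC θ (Or.inl (by simp))
  obtain ⟨ρA, hρA⟩ := hliftC ρ (Or.inl (by simp))
  obtain ⟨ΔA, hΔA⟩ := hliftC Δ (Or.inl (by simp))
  obtain ⟨ΦA, hΦA⟩ := hlift Φ (Or.inl (by simp))
  obtain ⟨UA, hUA⟩ := hlift U (Or.inl (by simp))
  obtain ⟨VA, hVA⟩ := hlift V (Or.inl (by simp))
  obtain ⟨Q0A, hQ0A⟩ := hlift Q0 (Or.inl (by simp))
  have hfex : ∀ i, ∃ qA : Po N A, map A.subtype qA = f i := fun i =>
    hliftC (f i) (Or.inr (Or.inl ⟨i, rfl⟩))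
  choose fA hfA using hfex
  have hRex : ∀ i, ∃ PA : Polynomial (Po N A), PA.map (map A.subtype) = R i := fun i =>
    hlift (R i) (Or.inr (Or.inr (Or.inl ⟨i, rfl⟩)))
  choose RA hRA using hRex
  have hQex : ∀ i, ∃ PA : Polynomial (Po N A), PA.map (map A.subtype) = Q i := fun i =>
    hlift (Q i) (Or.inr (Or.inr (Or.inr ⟨i, rfl⟩)))
  choose QA hQA using hQex
  -- the maps
  have hμ : Function.Injective (map A.subtype : Po N A →+* Po N k) :=
    map_injective _ A.subtype_injective
  have hM : Function.Injective (Polynomial.mapRingHom (map A.subtype : Po N A →+* Po N k)) := by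
    rw [Polynomial.coe_mapRingHom]
    exact Polynomial.map_injective _ hμ
  have hMk : ∀ c : A, Polynomial.mapRingHom (map A.subtype : Po N A →+* Po N k)
      (algebraMap A (Polynomial (Po N A)) c) = algebraMap k (Polynomial (Po N k)) (A.subtype c) := by
    intro c
    have h1 : algebraMap A (Polynomial (Po N A)) c = Polynomial.C (C c) := rfl
    have h2 : algebraMap k (Polynomial (Po N k)) (A.subtype c) =
      Polynomial.C (C (A.subtype c)) := rfl
    rw [h1, h2, Polynomial.coe_mapRingHom, Polynomial.map_C, map_C]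
  have hMQ : ∀ c : A, Polynomial.mapRingHom (map φ : Po N A →+* Po N Qb)
      (algebraMap A (Polynomial (Po N A)) c) = algebraMap Qb (Polynomial (Po N Qb)) (φ c) := by
    intro c
    have h1 : algebraMap A (Polynomial (Po N A)) c = Polynomial.C (C c) := rfl
    have h2 : algebraMap Qb (Polynomial (Po N Qb)) (φ c) = Polynomial.C (C (φ c)) := rfl
    rw [h1, h2, Polynomial.coe_mapRingHom, Polynomial.map_C, map_C]
  -- the identities over `A`
  have hmonA : ΦA.Monic := by
    refine Polynomial.monic_of_injective hμ ?_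
    rw [hΦA]
    exact hC.monic
  have hnatA : ΦA.natDegree = e := by
    rw [← Polynomial.natDegree_map_eq_of_injective hμ ΦA, hΦA]
    exact hC.nat
  have hsepA : UA * ΦA + VA * Polynomial.derivative ΦA = Polynomial.C ρA := by
    apply hM
    rw [map_add, map_mul, map_mul, Polynomial.coe_mapRingHom, ← Polynomial.derivative_map,
      Polynomial.map_C, hUA, hΦA, hVA, hρA]
    exact hUV
  have hinvA : ∀ i, hev RA (Polynomial.C ΔA) D (fA i) - Polynomial.C (ΔA ^ D * X i) =
      ΦA * QA i := by
    intro i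
    apply hM
    rw [map_sub, map_hev' A.subtype _ hMk]
    simp only [Polynomial.coe_mapRingHom, Polynomial.map_C, hRA, hΔA, hfA, map_mul, map_pow,
      map_X, Polynomial.map_mul, hΦA, hQA, Polynomial.map_pow]
    have h1 := hQ i
    simp only [map_mul, map_pow] at h1
    exact h1
  have hprimA : hev RA (Polynomial.C ΔA) D θA - Polynomial.C (ΔA ^ D) * Polynomial.X =
      ΦA * Q0A := by
    apply hM
    rw [map_sub, map_hev' A.subtype _ hMk]
    simp only [Polynomial.coe_mapRingHom, Polynomial.map_C, hRA, hΔA, hθA, map_mul, map_pow,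
      Polynomial.map_mul, hΦA, hQ0A, Polynomial.map_X, Polynomial.map_pow]
    have h1 := hQ0
    simp only [map_pow] at h1
    exact h1
  -- non-vanishing
  have hne : ∀ (q : Po N k) (qA : Po N A) (m : Fin N →₀ ℕ), map A.subtype qA = q →
      coeff m q ∈ ({coeff mb b, coeff mρ ρ, coeff mΔ Δ} : Finset k) → map φ qA ≠ 0 := by
    intro q qA m h1 h2 h3
    have h4 : ((coeff m qA : A) : k) = coeff m q := by
      rw [← h1, coeff_map]
      rfl
    have h5 := hE ((coeff m qA : A) : k) (coeff m qA).2 (by rw [h4]; exact h2)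
    have h6 := congrArg (coeff m) h3
    rw [coeff_map, coeff_zero] at h6
    exact h5 h6
  have hbne : map φ bA ≠ 0 := hne b bA mb hbA (by simp)
  have hρne : map φ ρA ≠ 0 := hne ρ ρA mρ hρA (by simp)
  have hΔne : map φ ΔA ≠ 0 := hne Δ ΔA mΔ hΔA (by simp)
  have hdegf : ∀ i, (map φ (fA i)).totalDegree ≤ (f i).totalDegree := by
    intro i
    rw [← hfA i, deg_mp_inj _ A.subtype_injective]
    exact deg_mp_le φ _
  have hdegg : deg (mp φ fA) ≤ deg f := deg_le fun i =>
    (hdegf i).trans (totalDegree_le_deg f i)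
  have hfmp : mp A.subtype fA = f := funext hfA
  refine ⟨mp φ fA, map φ bA, hdegg, hbne, ⟨ΦA.map (map φ), map φ θA, map φ ρA, map φ ΔA,
    fun i => (RA i).map (map φ), ⟨hmonA.map _, ?_, hdegg.trans hC.degG, ?_, ?_, ?_, ?_⟩,
      hρne, hΔne⟩, ?_⟩
  · rw [hmonA.natDegree_map, hnatA]
  · refine (deg_mp_le φ θA).trans ?_
    rw [← deg_mp_inj _ A.subtype_injective θA, hθA]
    exact hC.degθ
  · refine ⟨UA.map (map φ), VA.map (map φ), ?_⟩
    have h1 := congrArg (Polynomial.map (map φ : Po N A →+* Po N Qb)) hsepA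
    rw [Polynomial.map_add, Polynomial.map_mul, Polynomial.map_mul, Polynomial.map_C,
      ← Polynomial.derivative_map] at h1
    exact h1
  · intro i
    refine ⟨(QA i).map (map φ), ?_⟩
    have h1 := congrArg (Polynomial.mapRingHom (map φ : Po N A →+* Po N Qb)) (hinvA i)
    rw [map_sub, map_hev' φ _ hMQ] at h1
    simp only [Polynomial.coe_mapRingHom, Polynomial.map_C, map_mul, map_pow,
      map_X, Polynomial.map_mul, Polynomial.map_pow] at h1
    simp only [map_mul, map_pow]
    exact h1
  · refine ⟨Q0A.map (map φ), ?_⟩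
    have h1 := congrArg (Polynomial.mapRingHom (map φ : Po N A →+* Po N Qb)) hprimA
    rw [map_sub, map_hev' φ _ hMQ] at h1
    simp only [Polynomial.coe_mapRingHom, Polynomial.map_C, map_mul, map_pow,
      Polynomial.map_X, Polynomial.map_mul, Polynomial.map_pow] at h1
    simp only [map_pow]
    exact h1
  · intro x hx hdx
    set yA : Fin N → A := fun i => ⟨ι (x i), (hι (x i)).1⟩ with hyA
    have hφy : (fun i => φ (yA i)) = x := funext fun i => (hι (x i)).2
    refine ⟨fun i => (yA i : k), fun n h => ?_, ?_⟩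
    · apply hx n
      have h2 : (pmap f)^[n] (fun i => (yA i : k)) =
          fun i => (((pmap fA)^[n] yA i : A) : k) := by
        rw [← hfmp]
        exact (map_iter A.subtype fA yA n).symm
      have h3 : (pmap (mp φ fA))^[n] x = fun i => φ ((pmap fA)^[n] yA i) := by
        rw [map_iter φ fA yA n, hφy]
      rw [h2, ← hbA] at h
      have h4 := map_eval' A.subtype ((pmap fA)^[n] yA) bA
      have h5 : eval ((pmap fA)^[n] yA) bA = 0 := by
        apply A.subtype_injective
        rw [h4, map_zero]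
        exact h
      rw [h3, ← map_eval' φ, h5, map_zero]
    · have h1 := dense_lift hKER A φ fA yA (by rw [hφy]; exact hdx)
      rw [hfmp] at h1
      exact h1

end Pool.Agent.H69.HIT
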