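import Pool.Agent.H18.HIT.Targets

/-! # Hilbert irreducibility and dense orbits: polynomial identities describing the fibres -/

set_option autoImplicit false

open MvPolynomial
open Pool.Agent.H12.ZD (pmap v O Res DenseOrbit NoInv)
open Pool.Agent.H18.HIT

namespace Pool.Agent.H69.HIT

/-- the kernel of the evaluation is generated by an irreducible monic polynomial -/
theorem dvd_of_root {A B : Type} [CommRing A] [IsDomain A] [IsIntegrallyClosed A] [CommRing B]
    [IsDomain B] (ψ : A →+* B) (hψ : Function.Injective ψ) (θ : B) (Φ Q : Polynomial A)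
    (hm : Φ.Monic) (hi : Irreducible Φ) (h0 : Φ.eval₂ ψ θ = 0) (hQ : Q.eval₂ ψ θ = 0) :
    Φ ∣ Q := by
  letI : Algebra A B := ψ.toAlgebra
  haveI : FaithfulSMul A B := (faithfulSMul_iff_algebraMap_injective A B).2 hψ
  haveI : Module.IsTorsionFree A B := inferInstance
  have hint : IsIntegral A θ := ⟨Φ, hm, h0⟩
  have h1 : minpoly A θ ∣ Φ := minpoly.isIntegrallyClosed_dvd hint h0
  have h2 : minpoly A θ ∣ Q := minpoly.isIntegrallyClosed_dvd hint hQ
  obtain ⟨c, hc⟩ := h1
  rcases hi.isUnit_or_isUnit hc with h | h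
  · exact absurd h (minpoly.not_isUnit A θ)
  · rw [hc]
    exact h.mul_right_dvd.2 h2

section hev

variable {N : ℕ} {k : Type} [CommRing k] {B B' : Type} [CommRing B] [Algebra k B] [CommRing B']
  [Algebra k B']

theorem map_hev (ψ : B →+* B') (hψ : ∀ c : k, ψ (algebraMap k B c) = algebraMap k B' c)
    (R : Fin N → B) (δ : B) (D : ℕ) (q : Po N k) :
    ψ (hev R δ D q) = hev (fun i => ψ (R i)) (ψ δ) D q := by
  unfold hev
  rw [map_sum]
  refine Finset.sum_congr rfl fun m _ => ?_
  rw [map_mul, map_mul, map_pow, map_prod, hψ]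
  simp only [map_pow]

theorem hev_eq (x : Fin N → B) (δ : B) (D : ℕ) (q : Po N k) (hq : q.totalDegree ≤ D) :
    hev (fun i => δ * x i) δ D q = δ ^ D * aeval x q := by
  unfold hev
  rw [aeval_def, eval₂_eq', Finset.mul_sum]
  refine Finset.sum_congr rfl fun m hm => ?_
  have h1 : (m.sum fun _ e => e) ≤ D := (le_totalDegree hm).trans hq
  have h2 : (m.sum fun _ e => e) = ∑ i, m i := Finsupp.sum_fintype _ _ fun _ => rfl
  have h3 : ∏ i, (δ * x i) ^ m i = δ ^ (m.sum fun _ e => e) * ∏ i, x i ^ m i := by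
    rw [h2, ← Finset.prod_pow_eq_pow_sum, ← Finset.prod_mul_distrib]
    exact Finset.prod_congr rfl fun i _ => mul_pow _ _ _
  rw [h3]
  have h4 : δ ^ D = δ ^ (D - m.sum fun _ e => e) * δ ^ (m.sum fun _ e => e) := by
    rw [← pow_add, Nat.sub_add_cancel h1]
  rw [h4]
  ring

end hev

theorem pf_CVI (hSEP : T_SEP) : T_CVI := by
  intro N k _ _ G θ Φ Δ R hG hP
  obtain ⟨U, V, ρ, hρ, hUV⟩ := hSEP (Po N k) Φ hP.monic hP.irr
  set D : ℕ := max (deg G) θ.totalDegree with hD
  have hGD : ∀ i, (G i).totalDegree ≤ D := fun i =>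
    (Finset.le_sup (f := fun i => (G i).totalDegree) (Finset.mem_univ i)).trans
      (le_max_left _ _)
  set ev : Polynomial (Po N k) →+* Po N k :=
    Polynomial.eval₂RingHom (aeval G : Po N k →ₐ[k] Po N k).toRingHom θ with hev'
  have hevC : ∀ a : Po N k, ev (Polynomial.C a) = aeval G a := fun a => by
    rw [hev', Polynomial.coe_eval₂RingHom, Polynomial.eval₂_C]
    rfl
  have hevX : ev Polynomial.X = θ := by
    rw [hev', Polynomial.coe_eval₂RingHom, Polynomial.eval₂_X]
  have hevk : ∀ c : k, ev (algebraMap k (Polynomial (Po N k)) c) = algebraMap k (Po N k) c := by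
    intro c
    have h1 : algebraMap k (Polynomial (Po N k)) c = Polynomial.C (algebraMap k (Po N k) c) := rfl
    rw [h1, hevC]
    exact AlgHom.commutes _ c
  have hevR : ∀ i, ev (R i) = aeval G Δ * X i := fun i => (hP.coord i).symm
  have hker : ∀ Q : Polynomial (Po N k), ev Q = 0 → Φ ∣ Q := by
    intro Q hQ
    exact dvd_of_root (aeval G : Po N k →ₐ[k] Po N k).toRingHom hG θ Φ Q hP.monic hP.irr
      hP.root hQ
  have hmain : ∀ q : Po N k, q.totalDegree ≤ D →
      ev (hev R (Polynomial.C Δ) D q) = aeval G Δ ^ D * q := by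
    intro q hq
    rw [map_hev ev hevk, hevC]
    have h1 : (fun i => ev (R i)) = fun i => aeval G Δ * X i := funext hevR
    rw [h1, hev_eq _ _ D q hq]
    have h2 : aeval (X : Fin N → Po N k) q = q := by
      rw [aeval_X_left]
      rfl
    rw [h2]
  refine ⟨ρ, D, hρ, hP.monic, rfl, le_max_left _ _, le_max_right _ _, ⟨U, V, hUV⟩, ?_, ?_⟩
  · intro i
    refine hker _ ?_
    rw [map_sub, hmain _ (hGD i), hevC, map_mul, map_pow, aeval_X, sub_self]
  · refine hker _ ?_
    rw [map_sub, hmain _ (le_max_right _ _), map_mul, hevC, hevX, map_pow, sub_self]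

end Pool.Agent.H69.HIT
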